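import Pool.Agent.H11.LD.Targets

/-!
# ldm_modules PU: the quadratic form of the path
-/

set_option autoImplicit false

open Finset Classical

namespace Pool.Agent.H60.LD

open Pool.Agent.H11.LD Pool.Agent.H9.Lap

theorem lam_eq (g : ℕ) : 4 * Real.cos (Real.pi / (2 * g)) ^ 2 =
    2 + 2 * Real.cos (Real.pi / g) := by
  have h : Real.pi / g = 2 * (Real.pi / (2 * g)) := by
    rcases Nat.eq_zero_or_pos g with h | h
    · subst h
      simp
    · have : (g : ℝ) ≠ 0 := by positivity
      field_simp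
  rw [h, Real.cos_two_mul]
  ring

theorem sn_self (g : ℕ) (hg : 2 ≤ g) : sn g g = - sn g 0 := by
  unfold sn
  have : (g : ℝ) ≠ 0 := by positivity
  have e : Real.pi * (2 * (g : ℝ) + 1) / (2 * g) = Real.pi * (2 * ((0 : ℕ) : ℝ) + 1) / (2 * g) +
      Real.pi := by
    push_cast
    field_simp
    ring
  rw [e, Real.sin_add_pi]

/-- the terms of the ground state identity -/
noncomputable def bt (g : ℕ) (y : ℕ → ℝ) (i : ℕ) : ℝ :=
  sn g i * sn g (i + 1) * (y i / sn g i + y (i + 1) / sn g (i + 1)) ^ 2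

theorem ground (hSIN : T_SIN) (g : ℕ) (y : ℕ → ℝ) (hg : 2 ≤ g) : ∀ N : ℕ, N + 1 < g →
    ∑ i ∈ range (N + 1), (y i - y (i + 1)) ^ 2 + ∑ i ∈ range (N + 1), bt g y i =
      (2 + 2 * Real.cos (Real.pi / g)) * ∑ i ∈ range (N + 1), y i ^ 2 +
        (1 + sn g N / sn g (N + 1)) * y (N + 1) ^ 2 := by
  obtain ⟨hpos, -, hrec, h1, -, -⟩ := hSIN g hg
  intro N
  induction N with
  | zero =>
    intro hN
    have p0 := hpos 0 (by omega)
    have p1 := hpos 1 (by omega)
    simp only [zero_add, sum_range_one]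
    unfold bt
    have e : sn g (0 + 1) = (2 * Real.cos (Real.pi / g) + 1) * sn g 0 := h1
    have hc : 2 * Real.cos (Real.pi / g) = sn g 1 / sn g 0 - 1 := by
      rw [h1]
      field_simp
      ring
    rw [hc]
    simp only [zero_add]
    field_simp
    ring
  | succ N ih =>
    intro hN
    have p0 := hpos N (by omega)
    have p1 := hpos (N + 1) (by omega)
    have p2 := hpos (N + 2) (by omega)
    have hi := ih (by omega)
    have hr := hrec N
    rw [sum_range_succ, sum_range_succ _ (N + 1), sum_range_succ _ (N + 1)]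
    have hc : 2 * Real.cos (Real.pi / g) = (sn g N + sn g (N + 2)) / sn g (N + 1) := by
      rw [hr]
      field_simp
    have e1 : (y (N + 1) - y (N + 1 + 1)) ^ 2 + bt g y (N + 1) =
        (1 + sn g (N + 2) / sn g (N + 1)) * y (N + 1) ^ 2 +
          (1 + sn g (N + 1) / sn g (N + 1 + 1)) * y (N + 1 + 1) ^ 2 := by
      unfold bt
      have e : N + 1 + 1 = N + 2 := rfl
      rw [e]
      field_simp
      ring
    have e2 : (1 + sn g (N + 2) / sn g (N + 1)) * y (N + 1) ^ 2 +
        (1 + sn g N / sn g (N + 1)) * y (N + 1) ^ 2 =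
        (2 + 2 * Real.cos (Real.pi / g)) * y (N + 1) ^ 2 := by
      rw [hc]
      field_simp
      ring
    linarith

theorem ground' (hSIN : T_SIN) (g : ℕ) (y : ℕ → ℝ) (hg : 2 ≤ g) :
    ∑ i ∈ range (g - 1), (y i - y (i + 1)) ^ 2 + ∑ i ∈ range (g - 1), bt g y i =
      4 * Real.cos (Real.pi / (2 * g)) ^ 2 * ∑ i ∈ range g, y i ^ 2 := by
  obtain ⟨n, rfl⟩ : ∃ n, g = n + 2 := ⟨g - 2, by omega⟩
  have h := ground hSIN (n + 2) y hg n (by omega)
  obtain ⟨hpos, -, hrec, h1, hend, -⟩ := hSIN (n + 2) hg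
  have e : n + 2 - 1 = n + 1 := rfl
  rw [e] at hend ⊢
  rw [h, lam_eq, sum_range_succ _ (n + 1)]
  have p1 := hpos (n + 1) (by omega)
  have hr := hrec n
  rw [sn_self (n + 2) hg, ← hend] at hr
  have e2 : 1 + sn (n + 2) n / sn (n + 2) (n + 1) =
      2 + 2 * Real.cos (Real.pi / ((n + 2 : ℕ) : ℝ)) := by
    field_simp
    linarith
  rw [e2]
  ring

theorem pf_PU (hSIN : T_SIN) : T_PU := by
  intro g y hg
  have hG := ground' hSIN g y hg
  obtain ⟨hpos, -, hrec, h1, hend, -⟩ := hSIN g hg
  have hbt : ∀ i ∈ range (g - 1), 0 ≤ bt g y i := by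
    intro i hi
    rw [mem_range] at hi
    have p0 := hpos i (by omega)
    have p1 := hpos (i + 1) (by omega)
    unfold bt
    positivity
  refine ⟨?_, ?_⟩
  · have := sum_nonneg hbt
    linarith
  · intro k r hk hr0 hr1
    have hk1 : 1 ≤ k := by omega
    obtain ⟨j, rfl⟩ : ∃ j, k = j + 1 := ⟨k - 1, by omega⟩
    have hsub : bt g y j + bt g y (j + 1) ≤ ∑ i ∈ range (g - 1), bt g y i := by
      have hne : j ≠ j + 1 := by omega
      rw [← sum_pair hne]
      refine sum_le_sum_of_subset_of_nonneg ?_ fun i hi _ => hbt i hi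
      intro i hi
      rw [mem_insert, mem_singleton] at hi
      rw [mem_range]
      omega
    have hgR : (g : ℝ) = 2 * (j + 1) + 1 := by
      rw [hk]
      push_cast
      ring
    have hg0 : (g : ℝ) ≠ 0 := by positivity
    have hmid : sn g (j + 1) = 1 := by
      unfold sn
      have e : Real.pi * (2 * ((j + 1 : ℕ) : ℝ) + 1) / (2 * g) = Real.pi / 2 := by
        push_cast
        rw [hgR]
        have : (2 * ((j : ℝ) + 1) + 1) ≠ 0 := by positivity
        field_simp
      rw [e, Real.sin_pi_div_two]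
    have hsym : sn g j = sn g (j + 2) := by
      unfold sn
      have e : Real.pi * (2 * ((j : ℕ) : ℝ) + 1) / (2 * g) = Real.pi -
          Real.pi * (2 * ((j + 2 : ℕ) : ℝ) + 1) / (2 * g) := by
        push_cast
        rw [hgR]
        have : (2 * ((j : ℝ) + 1) + 1) ≠ 0 := by positivity
        field_simp
        ring
      rw [e, Real.sin_pi_sub]
    have hw0 : 0 < sn g (j + 2) := hpos (j + 2) (by omega)
    have hw1 : sn g (j + 2) ≤ 1 := Real.sin_le_one _
    set w := sn g (j + 2) with hw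
    have hb : bt g y j + bt g y (j + 1) = w * ((y j / w + y (j + 1)) ^ 2 +
        (y (j + 1) + y (j + 2) / w) ^ 2) := by
      unfold bt
      rw [hmid, hsym]
      rw [← hw]
      ring
    have hge : r / 2 * (y (j + 2) - y j) ^ 2 ≤ bt g y j + bt g y (j + 1) := by
      rw [hb]
      have h5 : (y (j + 2) - y j) ^ 2 / w / 2 ≤ w * ((y j / w + y (j + 1)) ^ 2 +
          (y (j + 1) + y (j + 2) / w) ^ 2) := by
        have e : w * ((y j / w + y (j + 1)) ^ 2 + (y (j + 1) + y (j + 2) / w) ^ 2) -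
            (y (j + 2) - y j) ^ 2 / w / 2 =
            (y j + y (j + 2) + 2 * w * y (j + 1)) ^ 2 / (2 * w) := by
          field_simp
          ring
        have : 0 ≤ (y j + y (j + 2) + 2 * w * y (j + 1)) ^ 2 / (2 * w) := by positivity
        linarith
      refine le_trans ?_ h5
      rw [div_div, div_eq_mul_inv ((y (j + 2) - y j) ^ 2), mul_comm]
      apply mul_le_mul_of_nonneg_left _ (sq_nonneg _)
      rw [← one_div]
      rw [div_le_div_iff₀ (by norm_num) (by positivity)]
      nlinarith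
    have e3 : j + 1 + 1 = j + 2 := rfl
    have e4 : j + 1 - 1 = j := rfl
    rw [e3, e4]
    linarith

end Pool.Agent.H60.LD
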