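import Pool.Agent.H11.LD.Targets

/-!
# ldm_modules UBL: the leaves of a cluster which are not ends of links
-/

set_option autoImplicit false

open Finset Classical

namespace Pool.Agent.H60.LD

open Pool.Agent.H11.LD Pool.Agent.H9.Lap

theorem double_sum (S : Finset ℕ) (x : ℕ → ℝ) :
    ∑ j ∈ S, ∑ j' ∈ S, (x j - x j') ^ 2 =
      2 * (S.card * ∑ j ∈ S, x j ^ 2) - 2 * (∑ j ∈ S, x j) ^ 2 := by
  have h : ∀ j ∈ S, ∑ j' ∈ S, (x j - x j') ^ 2 =
      S.card * x j ^ 2 + ∑ j' ∈ S, x j' ^ 2 - 2 * (x j * ∑ j' ∈ S, x j') := by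
    intro j _
    have e : ∀ j' ∈ S, (x j - x j') ^ 2 = x j ^ 2 + x j' ^ 2 - 2 * (x j * x j') := by
      intro j' _
      ring
    rw [sum_congr rfl e, sum_sub_distrib, sum_add_distrib, sum_const, nsmul_eq_mul, ← mul_sum,
      ← mul_sum]
  rw [sum_congr rfl h, sum_sub_distrib, sum_add_distrib, sum_const, nsmul_eq_mul, ← mul_sum,
    ← mul_sum, ← sum_mul]
  ring

theorem pf_UBL : T_UBL := by
  intro S x y μ hμ hS
  rw [double_sum]
  have h1 : ∑ j ∈ S, (y - x j) ^ 2 = S.card * y ^ 2 + ∑ j ∈ S, x j ^ 2 -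
      2 * (y * ∑ j ∈ S, x j) := by
    have e : ∀ j ∈ S, (y - x j) ^ 2 = y ^ 2 + x j ^ 2 - 2 * (y * x j) := by
      intro j' _
      ring
    rw [sum_congr rfl e, sum_sub_distrib, sum_add_distrib, sum_const, nsmul_eq_mul, ← mul_sum,
      ← mul_sum]
  rw [h1]
  have hcs : (∑ j ∈ S, x j) ^ 2 ≤ S.card * ∑ j ∈ S, x j ^ 2 := sq_sum_le_card_mul_sum_sq
  rcases S.eq_empty_or_nonempty with h0 | hne
  · subst h0
    simp
  have hN : (1 : ℝ) ≤ S.card := by exact_mod_cast hne.card_pos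
  set N : ℝ := (S.card : ℝ) with hNdef
  set X := ∑ j ∈ S, x j with hX
  set Q := ∑ j ∈ S, x j ^ 2 with hQ
  set t := μ - 1 with ht
  have ht0 : 0 < t := by linarith
  have hμt : μ / (μ - 1) = 1 + 1 / t := by
    rw [← ht]
    field_simp
    linarith
  rw [hμt]
  have key : 0 ≤ (t - N) * Q + N * y ^ 2 / t + 2 * y * X + X ^ 2 := by
    have h2 : 0 ≤ t * (t - N) * (N * Q) + N ^ 2 * y ^ 2 + 2 * t * N * y * X + t * N * X ^ 2 := by
      have h3 : t * (t - N) * X ^ 2 ≤ t * (t - N) * (N * Q) :=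
        mul_le_mul_of_nonneg_left hcs (mul_nonneg ht0.le (by linarith))
      nlinarith [sq_nonneg (t * X + N * y)]
    have h4 : (t - N) * Q + N * y ^ 2 / t + 2 * y * X + X ^ 2 =
        (t * (t - N) * (N * Q) + N ^ 2 * y ^ 2 + 2 * t * N * y * X + t * N * X ^ 2) / (t * N) := by
      field_simp
    rw [h4]
    positivity
  have e2 : N * (1 + 1 / t) * y ^ 2 = N * y ^ 2 + N * y ^ 2 / t := by ring
  rw [e2]
  have hμ' : μ = t + 1 := by rw [ht]; ring
  rw [hμ']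
  nlinarith

end Pool.Agent.H60.LD
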